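import Pool.Agent.TH829.Rig.Dies

/-!
# Vanishing powers and nilpotence are local on the prime ideals
-/

set_option autoImplicit false

open CategoryTheory MonoidalCategory Limits BraidedCategory

universe u v

namespace Pool.Agent.TH829.Rig

open Pool.Agent.TH90.AB Pool.Agent.TH90.Kim
open Pool.Agent.TH829.Ten (Family IsTensorIdeal IsPrimeIdeal IsMult Avoids)

set_option linter.unusedSectionVars false

noncomputable section

variable {𝒜 : Type u} [Category.{v} 𝒜] [MonoidalCategory 𝒜] [SymmetricCategory 𝒜]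

/-- `T n ⊗ T m ⟶ T (n + m)`. -/
def ad (M : 𝒜) (n : ℕ) : ∀ m, T M n ⊗ T M m ⟶ T M (n + m)
  | 0 => (ρ_ (T M n)).hom
  | m + 1 => (α_ (T M n) (T M m) M).inv ≫ ad M n m ▷ M

/-- `T (n + m) ⟶ T n ⊗ T m`. -/
def da (M : 𝒜) (n : ℕ) : ∀ m, T M (n + m) ⟶ T M n ⊗ T M m
  | 0 => (ρ_ (T M n)).inv
  | m + 1 => da M n m ▷ M ≫ (α_ (T M n) (T M m) M).hom

lemma da_ad (M : 𝒜) (n m : ℕ) : da M n m ≫ ad M n m = 𝟙 _ := by
  induction m with
  | zero => simp [da, ad]
  | succ m ih =>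
    simp only [da, ad, Category.assoc, Iso.hom_inv_id_assoc]
    rw [← comp_whiskerRight, ih, id_whiskerRight]
    rfl

lemma ad_Tm {M : 𝒜} (e : M ⟶ M) (n m : ℕ) :
    ad M n m ≫ Tm e (n + m) = (Tm e n ⊗ₘ Tm e m) ≫ ad M n m := by
  induction m with
  | zero => simp [ad, Tm]
  | succ m ih =>
    simp only [ad, Category.assoc]
    have e1 : Tm e (n + (m + 1)) = Tm e (n + m) ⊗ₘ e := rfl
    have e2 : Tm e (m + 1) = Tm e m ⊗ₘ e := rfl
    have e3 : ad M n m ▷ M ≫ (Tm e (n + m) ⊗ₘ e) = ((Tm e n ⊗ₘ Tm e m) ⊗ₘ e) ≫ ad M n m ▷ M := by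
      rw [← tensorHom_id, tensorHom_comp_tensorHom, ih, tensorHom_comp_tensorHom,
        Category.id_comp, Category.comp_id]
    rw [e1, e2, e3, ← associator_inv_naturality_assoc]

lemma ad_left (M : 𝒜) (n m : ℕ) (s : T M n ⟶ T M n) (hs : Adj M n s) :
    ∃ s' : T M (n + m) ⟶ T M (n + m), Adj M (n + m) s' ∧ s ▷ T M m ≫ ad M n m = ad M n m ≫ s' := by
  induction m with
  | zero => exact ⟨s, hs, by simp [ad]⟩
  | succ m ih =>
    obtain ⟨s', h1, h2⟩ := ih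
    refine ⟨s' ▷ M, Adj.whisker _ s' h1, ?_⟩
    simp only [ad, Category.assoc]
    rw [← comp_whiskerRight, ← h2, comp_whiskerRight]
    simp

lemma ad_right (M : 𝒜) (n m : ℕ) (s : T M m ⟶ T M m) (hs : Adj M m s) :
    ∃ s' : T M (n + m) ⟶ T M (n + m), Adj M (n + m) s' ∧ T M n ◁ s ≫ ad M n m = ad M n m ≫ s' := by
  induction hs with
  | last m =>
    refine ⟨_, Adj.last (n + m), ?_⟩
    have e1 : ad M n (m + 2) = (α_ (T M n) (T M m ⊗ M) M).inv ≫
        (α_ (T M n) (T M m) M).inv ▷ M ≫ (ad M n m ▷ M) ▷ M := by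
      simp only [ad, comp_whiskerRight]
    have e2 : T M n ◁ sw (T M m) M ≫ (α_ (T M n) (T M m ⊗ M) M).inv ≫
        (α_ (T M n) (T M m) M).inv ▷ M = (α_ (T M n) (T M m ⊗ M) M).inv ≫
        (α_ (T M n) (T M m) M).inv ▷ M ≫ sw (T M n ⊗ T M m) M := by
      simp only [sw]
      monoidal
    rw [e1]
    simp only [Category.assoc]
    rw [sw_natural, reassoc_of% e2]
  | whisker m s hs ih =>
    obtain ⟨s', h1, h2⟩ := ih
    refine ⟨s' ▷ M, Adj.whisker _ s' h1, ?_⟩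
    simp only [ad, Category.assoc]
    rw [← comp_whiskerRight, ← h2, comp_whiskerRight]
    simp

section linear

variable [Preadditive 𝒜] [MonoidalPreadditive 𝒜] [Linear ℚ 𝒜] [MonoidalLinear ℚ 𝒜]

lemma sy_ad_left {ε : ℚ} (hε : ε * ε = 1) {M Y : 𝒜} {n m : ℕ} {g : T M (n + m) ⟶ Y}
    (hg : Signed ε g) : sy ε M n ▷ T M m ≫ ad M n m ≫ g = ad M n m ≫ g := by
  apply sy_comp_aux hε
  intro s hs
  obtain ⟨s', h1, h2⟩ := ad_left M n m s hs
  rw [reassoc_of% h2, hg s' h1, Linear.comp_smul]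

lemma sy_ad_right {ε : ℚ} (hε : ε * ε = 1) {M Y : 𝒜} {n m : ℕ} {g : T M (n + m) ⟶ Y}
    (hg : Signed ε g) : T M n ◁ sy ε M m ≫ ad M n m ≫ g = ad M n m ≫ g := by
  have h : sy ε M m ▷ T M n ≫ (β_ (T M m) (T M n)).hom ≫ ad M n m ≫ g =
      (β_ (T M m) (T M n)).hom ≫ ad M n m ≫ g := by
    apply sy_comp_aux hε
    intro s hs
    obtain ⟨s', h1, h2⟩ := ad_right M n m s hs
    rw [braiding_naturality_left_assoc, reassoc_of% h2, hg s' h1, Linear.comp_smul,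
      Linear.comp_smul]
  rw [braiding_naturality_left_assoc] at h
  exact (cancel_epi (β_ (T M m) (T M n)).hom).1 h

/-- The system of the (anti)symmetrizations of the tensor powers of `e`. -/
def dieSys (ε : ℚ) {M : 𝒜} (e : M ⟶ M) (X Y : 𝒜) (f : X ⟶ Y) : Prop :=
  ∃ n : ℕ, ∃ (h1 : X = T M n) (h2 : Y = T M n), f = eqToHom h1 ≫ (Tm e n ≫ sy ε M n) ≫
    eqToHom h2.symm

lemma dieSys_mk (ε : ℚ) {M : 𝒜} (e : M ⟶ M) (n : ℕ) :
    dieSys ε e (T M n) (T M n) (Tm e n ≫ sy ε M n) := ⟨n, rfl, rfl, by simp⟩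

lemma isMult_dieSys {ε : ℚ} (hε : ε * ε = 1) {M : 𝒜} (e : M ⟶ M) : IsMult (dieSys ε e) where
  nonempty := ⟨_, _, _, dieSys_mk ε e 0⟩
  mul := by
    rintro X Y Z W f g ⟨n, rfl, rfl, rfl⟩ ⟨m, rfl, rfl, rfl⟩ I hI hfg
    refine ⟨_, _, _, dieSys_mk ε e (n + m), ?_⟩
    simp only [eqToHom_refl, Category.id_comp, Category.comp_id] at hfg
    have e1 : Tm e (n + m) ≫ sy ε M (n + m) = da M n m ≫ ((Tm e n ≫ sy ε M n) ⊗ₘ
        (Tm e m ≫ sy ε M m)) ≫ ad M n m ≫ sy ε M (n + m) := by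
      rw [← tensorHom_comp_tensorHom, MonoidalCategory.tensorHom_def (sy ε M n) (sy ε M m),
        Category.assoc, Category.assoc, sy_ad_right hε (signed_sy hε M (n + m)),
        sy_ad_left hε (signed_sy hε M (n + m)), ← reassoc_of% (ad_Tm e n m),
        reassoc_of% (da_ad M n m)]
    rw [e1]
    exact hI.comp_left _ (hI.comp_right _ hfg)

lemma powZeroMod_iff {I : Family 𝒜} (hI : IsTensorIdeal I) {ε : ℚ} (hε : ε * ε = 1) {M : 𝒜}
    (e : M ⟶ M) (n : ℕ) : PowZeroMod I ε e n ↔ Tm e n ≫ sy ε M n ∈ I (T M n) (T M n) := by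
  constructor
  · intro h
    exact h _ _ (signed_sy hε M n)
  · intro h Y g hg
    rw [← sy_comp hε hg, ← Category.assoc]
    exact hI.comp_right _ h

/-- If modulo each prime tensor ideal some power is zero then some power is zero. -/
theorem powZero_of_prime {ε : ℚ} (hε : ε * ε = 1) {M : 𝒜} (e : M ⟶ M) {I : Family 𝒜}
    (hI : IsTensorIdeal I)
    (h : ∀ P : Family 𝒜, IsPrimeIdeal P → I ≤ P → ∃ n, PowZeroMod P ε e n) :
    ∃ n, PowZeroMod I ε e n := by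
  by_contra hcon
  push Not at hcon
  have hav : Avoids (dieSys ε e) I := by
    rintro X Y f ⟨n, rfl, rfl, rfl⟩ h2
    simp only [eqToHom_refl, Category.id_comp, Category.comp_id] at h2
    exact hcon n ((powZeroMod_iff hI hε e n).2 h2)
  obtain ⟨P, hP, hIP, hPa⟩ := Ten.exists_prime_avoids (isMult_dieSys hε e) hI hav
  obtain ⟨n, hn⟩ := h P hP hIP
  exact hPa _ _ _ (dieSys_mk ε e n) ((powZeroMod_iff hP.toIsTensorIdeal hε e n).1 hn)

/-! ### Nilpotence -/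

/-- The system of the tensor powers of the powers of `x`. -/
def nilSys {M : 𝒜} (x : M ⟶ M) (X Y : 𝒜) (f : X ⟶ Y) : Prop :=
  ∃ k n : ℕ, ∃ (h1 : X = T M n) (h2 : Y = T M n), f = eqToHom h1 ≫ Tm (pw x k) n ≫
    eqToHom h2.symm

lemma nilSys_mk {M : 𝒜} (x : M ⟶ M) (k n : ℕ) :
    nilSys x (T M n) (T M n) (Tm (pw x k) n) := ⟨k, n, rfl, rfl, by simp⟩

lemma isMult_nilSys {M : 𝒜} (x : M ⟶ M) : IsMult (nilSys x) where
  nonempty := ⟨_, _, _, nilSys_mk x 0 0⟩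
  mul := by
    rintro X Y Z W f g ⟨k, n, rfl, rfl, rfl⟩ ⟨l, m, rfl, rfl, rfl⟩ I hI hfg
    refine ⟨_, _, _, nilSys_mk x (k + l) (n + m), ?_⟩
    simp only [eqToHom_refl, Category.id_comp, Category.comp_id] at hfg
    have e1 : Tm (pw x (k + l)) (n + m) = da M n m ≫ ((Tm (pw x l) n) ⊗ₘ (Tm (pw x k) m)) ≫
        (Tm (pw x k) n ⊗ₘ Tm (pw x l) m) ≫ ad M n m := by
      rw [← Category.assoc (_ ⊗ₘ _), tensorHom_comp_tensorHom, Tm_comp, Tm_comp, pw_add, pw_add,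
        Nat.add_comm l k, ← ad_Tm, reassoc_of% (da_ad M n m)]
    rw [e1]
    exact hI.comp_left _ (hI.comp_left _ (hI.comp_right _ hfg))

variable [hdual : ∀ X : 𝒜, HasRightDual X]

lemma contr_step {I : Family 𝒜} (hI : IsTensorIdeal I) {M : 𝒜} (y z : M ⟶ M) (n : ℕ)
    (h : Tm y (n + 1) ⊗ₘ z ∈ I (T M (n + 2)) (T M (n + 2))) :
    Tm y n ⊗ₘ (y ≫ z) ∈ I (T M (n + 1)) (T M (n + 1)) := by
  have e1 : ptr ((Tm y (n + 1) ⊗ₘ z) ≫ sw (T M n) M) = Tm y n ⊗ₘ (y ≫ z) := by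
    rw [MonoidalCategory.tensorHom_def, Category.assoc, ptr_left]
    have := ptr_whisker_sw (X := T M n) z
    rw [this]
    simp [Tm, MonoidalCategory.tensorHom_def]
  rw [← e1]
  exact IsTensorIdeal.ptr_mem hI (hI.comp_right _ h)

lemma pw_mem_of_Tm {I : Family 𝒜} (hI : IsTensorIdeal I) {M : 𝒜} (y : M ⟶ M) (n : ℕ) :
    ∀ z : M ⟶ M, Tm y n ⊗ₘ z ∈ I (T M (n + 1)) (T M (n + 1)) → pw y n ≫ z ∈ I M M := by
  induction n with
  | zero =>
    intro z h
    have e : pw y 0 ≫ z = (λ_ M).inv ≫ (Tm y 0 ⊗ₘ z) ≫ (λ_ M).hom := by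
      simp only [Tm, id_tensorHom, pw, pow_zero]
      change 𝟙 M ≫ z = _
      simp
    rw [e]
    exact hI.comp_left _ (hI.comp_right _ h)
  | succ n ih =>
    intro z h
    have h1 := ih _ (contr_step hI y z n h)
    have e : pw y (n + 1) ≫ z = pw y n ≫ y ≫ z := by
      have h2 : y = pw y 1 := by
        unfold pw
        rw [pow_one]
      have h3 : pw y (n + 1) = pw y n ≫ y := by
        conv_rhs => rw [h2]
        rw [show pw (pw y 1) n = pw y n by rw [← h2], pw_add, Nat.add_comm]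
      rw [h3, Category.assoc]
    rwa [e]

/-- An endomorphism is nilpotent modulo a tensor ideal if it is nilpotent modulo each prime
tensor ideal. -/
theorem nil_of_prime {M : 𝒜} (x : M ⟶ M) {I : Family 𝒜} (hI : IsTensorIdeal I)
    (h : ∀ P : Family 𝒜, IsPrimeIdeal P → I ≤ P → ∃ k, pw x k ∈ P M M) :
    ∃ k, pw x k ∈ I M M := by
  by_contra hcon
  push Not at hcon
  have hav : Avoids (nilSys x) I := by
    rintro X Y f ⟨k, n, rfl, rfl, rfl⟩ h2
    simp only [eqToHom_refl, Category.id_comp, Category.comp_id] at h2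
    have h3 : Tm (pw x k) n ⊗ₘ 𝟙 M ∈ I (T M (n + 1)) (T M (n + 1)) := by
      rw [tensorHom_id]
      exact hI.whisker_right M h2
    have h4 := pw_mem_of_Tm hI (pw x k) n _ h3
    rw [Category.comp_id] at h4
    apply hcon (k * n)
    have e : pw x (k * n) = pw (pw x k) n := by
      unfold pw
      rw [pow_mul]
    rwa [e]
  obtain ⟨P, hP, hIP, hPa⟩ := Ten.exists_prime_avoids (isMult_nilSys x) hI hav
  obtain ⟨k, hk⟩ := h P hP hIP
  refine hPa _ _ _ (nilSys_mk x k 1) ?_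
  have e : Tm (pw x k) 1 = 𝟙_ 𝒜 ◁ pw x k := by simp [Tm]
  rw [e]
  exact hP.whisker_left _ hk

end linear

end

end Pool.Agent.TH829.Rig
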