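import Pool.Agent.TH829.Rig.Quot

/-!
# Even and odd endomorphisms modulo a tensor ideal
-/

set_option autoImplicit false

open CategoryTheory MonoidalCategory Limits BraidedCategory

universe u v

namespace Pool.Agent.TH829.Rig

open Pool.Agent.TH90.AB Pool.Agent.TH90.Kim
open Pool.Agent.TH829.Kim (K F K_succ F_succ Killed InRad)
open Pool.Agent.TH829.Ten (Family IsTensorIdeal IsPrimeIdeal)

set_option linter.unusedSectionVars false

noncomputable section

variable {𝒜 : Type u} [Category.{v} 𝒜] [MonoidalCategory 𝒜] [SymmetricCategory 𝒜]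
  [Preadditive 𝒜] [MonoidalPreadditive 𝒜] [Linear ℚ 𝒜] [MonoidalLinear ℚ 𝒜]

/-- The morphism `e^{⊗n}` of tensor powers of `M` kills all symmetric (`ε = 1`) or alternating
(`ε = -1`) morphisms modulo `I`. -/
def PowZeroMod (I : Family 𝒜) (ε : ℚ) {M : 𝒜} (e : M ⟶ M) (n : ℕ) : Prop :=
  ∀ (Y : 𝒜) (g : T M n ⟶ Y), Signed ε g → Tm e n ≫ g ∈ I (T M n) Y

/-- The morphisms killed by all numerical invariants. -/
def numI : Family 𝒜 := fun X Y =>
  { carrier := {f | ∀ (Z : 𝒜) (h : 𝟙_ 𝒜 ⟶ Z ⊗ X) (k : Z ⊗ Y ⟶ 𝟙_ 𝒜), h ≫ Z ◁ f ≫ k = 0}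
    zero_mem' := by
      intro Z h k
      rw [MonoidalPreadditive.whiskerLeft_zero, zero_comp, comp_zero]
    add_mem' := by
      intro a b ha hb Z h k
      rw [MonoidalPreadditive.whiskerLeft_add, Preadditive.add_comp, Preadditive.comp_add, ha, hb,
        add_zero]
    smul_mem' := by
      intro q a ha Z h k
      rw [MonoidalLinear.whiskerLeft_smul, Linear.smul_comp, Linear.comp_smul, ha, smul_zero] }

lemma mem_numI {X Y : 𝒜} {f : X ⟶ Y} : f ∈ numI X Y ↔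
    ∀ (Z : 𝒜) (h : 𝟙_ 𝒜 ⟶ Z ⊗ X) (k : Z ⊗ Y ⟶ 𝟙_ 𝒜), h ≫ Z ◁ f ≫ k = 0 := Iff.rfl

lemma isTensorIdeal_numI : IsTensorIdeal (numI (𝒜 := 𝒜)) := by
  have h1 : ∀ {X Y Z : 𝒜} (g : X ⟶ Y) {f : Y ⟶ Z}, f ∈ numI Y Z → g ≫ f ∈ numI X Z := by
    intro X Y Z g f hf W h k
    have := hf W (h ≫ W ◁ g) k
    simpa using this
  have h2 : ∀ {X Y Z : 𝒜} {f : X ⟶ Y} (g : Y ⟶ Z), f ∈ numI X Y → f ≫ g ∈ numI X Z := by
    intro X Y Z f g hf W h k
    have := hf W h (W ◁ g ≫ k)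
    simpa using this
  have h3 : ∀ (Z : 𝒜) {X Y : 𝒜} {f : X ⟶ Y}, f ∈ numI X Y →
      Z ◁ f ∈ numI (Z ⊗ X) (Z ⊗ Y) := by
    intro Z X Y f hf W h k
    have := hf (W ⊗ Z) (h ≫ (α_ W Z X).inv) ((α_ W Z Y).hom ≫ k)
    simpa using this
  refine { comp_left := fun g _ hf => h1 g hf, comp_right := fun g hf => h2 g hf,
           whisker_left := fun Z _ _ _ hf => h3 Z hf, whisker_right := ?_ }
  intro Z X Y f hf
  have e : f ▷ Z = (β_ X Z).hom ≫ (Z ◁ f) ≫ (β_ Z Y).hom := by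
    rw [← id_tensorHom, ← tensorHom_id, BraidedCategory.braiding_naturality,
      SymmetricCategory.symmetry_assoc]
  rw [e]
  exact h1 _ (h2 _ (h3 Z hf))

lemma unit_notMem_numI (hne : 𝟙 (𝟙_ 𝒜) ≠ 0) : 𝟙 (𝟙_ 𝒜) ∉ numI (𝟙_ 𝒜) (𝟙_ 𝒜) := by
  intro h
  apply hne
  have h1 := h (𝟙_ 𝒜) (λ_ (𝟙_ 𝒜)).inv (λ_ (𝟙_ 𝒜)).hom
  simpa using h1

lemma le_numI (hS : Scalars 𝒜) {I : Family 𝒜} (hI : IsTensorIdeal I)
    (h1 : 𝟙 (𝟙_ 𝒜) ∉ I (𝟙_ 𝒜) (𝟙_ 𝒜)) {X Y : 𝒜} {f : X ⟶ Y} (hf : f ∈ I X Y) :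
    f ∈ numI X Y := by
  intro Z h k
  have h2 : h ≫ Z ◁ f ≫ k ∈ I (𝟙_ 𝒜) (𝟙_ 𝒜) :=
    hI.comp_left _ (hI.comp_right _ (hI.whisker_left _ hf))
  rw [hS.num_spec (h ≫ Z ◁ f ≫ k), hS.num_eq_zero h1 h2, zero_smul]

lemma isPrime_numI (hS : Scalars 𝒜) : IsPrimeIdeal (numI (𝒜 := 𝒜)) := by
  refine { isTensorIdeal_numI with unit_notMem := unit_notMem_numI hS.ne, prime := ?_ }
  intro X Y Z W f g hfg
  by_contra hcon
  push Not at hcon
  obtain ⟨hf, hg⟩ := hcon
  apply hg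
  have hJ : IsTensorIdeal (Ten.colon (numI (𝒜 := 𝒜)) f) := isTensorIdeal_numI.colon f
  refine le_numI hS hJ ?_ (f := g) hfg
  intro h2
  rw [Ten.mem_colon] at h2
  apply hf
  have e : f = (ρ_ X).inv ≫ (f ⊗ₘ 𝟙 (𝟙_ 𝒜)) ≫ (ρ_ Y).hom := by simp
  rw [e]
  exact isTensorIdeal_numI.comp_left _ (isTensorIdeal_numI.comp_right _ h2)

/-- The ideal of the endomorphisms belonging to `I`. -/
def idl {I : Family 𝒜} (hI : IsTensorIdeal I) (M : 𝒜) : Ideal (End M) where
  carrier := {a | (show M ⟶ M from a) ∈ I M M}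
  zero_mem' := Submodule.zero_mem (I M M)
  add_mem' ha hb := Submodule.add_mem (I M M) ha hb
  smul_mem' r _ ha := hI.comp_right (show M ⟶ M from r) ha

instance {I : Family 𝒜} (hI : IsTensorIdeal I) (M : 𝒜) : (idl hI M).IsTwoSided where
  mul_mem_of_left b ha := hI.comp_left (show M ⟶ M from b) ha

/-- The ring of the endomorphisms modulo `I`. -/
abbrev RP {I : Family 𝒜} (hI : IsTensorIdeal I) (M : 𝒜) : Type _ := End M ⧸ idl hI M

/-- The quotient map. -/
abbrev mk {I : Family 𝒜} (hI : IsTensorIdeal I) (M : 𝒜) : End M →+* RP hI M :=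
  Ideal.Quotient.mk (idl hI M)

lemma mk_eq_zero {I : Family 𝒜} {hI : IsTensorIdeal I} {M : 𝒜} {a : End M} :
    mk hI M a = 0 ↔ (show M ⟶ M from a) ∈ I M M := Ideal.Quotient.eq_zero_iff_mem

lemma mk_smul {I : Family 𝒜} {hI : IsTensorIdeal I} {M : 𝒜} (q : ℚ) (a : End M) :
    mk hI M (q • a) = q • mk hI M a := rfl

lemma tp_comp {M : 𝒜} (p q : ℕ → End M) (n : ℕ) :
    tp p n ≫ tp q n = tp (fun j => q j * p j) n := by
  induction n with
  | zero =>
    simp only [tp]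
    rw [← MonoidalCategory.whiskerLeft_comp]
    rfl
  | succ n ih =>
    simp only [tp, Category.assoc]
    rw [← ih, whisker_exchange_assoc, ← MonoidalCategory.whiskerLeft_comp,
      ← comp_whiskerRight_assoc]
    rfl

lemma tp_const {M : 𝒜} (f : End M) (n : ℕ) :
    tp (fun _ => f) n = Tm (show M ⟶ M from f) (n + 1) := by
  induction n with
  | zero => simp [tp, Tm]
  | succ n ih =>
    rw [Tm, ← ih, tp, MonoidalCategory.tensorHom_def]

section trace

variable [hdual : ∀ X : 𝒜, HasRightDual X]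

/-- The trace on the quotient ring, as a homomorphism of groups. -/
def trP0 (hS : Scalars 𝒜) {I : Family 𝒜} (hI : IsTensorIdeal I)
    (h1 : 𝟙 (𝟙_ 𝒜) ∉ I (𝟙_ 𝒜) (𝟙_ 𝒜)) (M : 𝒜) : RP hI M →+ ℚ :=
  QuotientAddGroup.lift (idl hI M).toAddSubgroup (trL hS M).toAddMonoidHom (by
    intro a ha
    rw [AddMonoidHom.mem_ker]
    exact trL_of_mem hS hI h1 ha)

/-- The trace on the quotient ring. -/
def trP (hS : Scalars 𝒜) {I : Family 𝒜} (hI : IsTensorIdeal I)
    (h1 : 𝟙 (𝟙_ 𝒜) ∉ I (𝟙_ 𝒜) (𝟙_ 𝒜)) (M : 𝒜) : RP hI M →ₗ[ℚ] ℚ :=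
  (trP0 hS hI h1 M).toRatLinearMap

variable {hS : Scalars 𝒜} {I : Family 𝒜} {hI : IsTensorIdeal I}
    {h1 : 𝟙 (𝟙_ 𝒜) ∉ I (𝟙_ 𝒜) (𝟙_ 𝒜)} {M : 𝒜}

lemma trP_mk (a : End M) : trP hS hI h1 M (mk hI M a) = trL hS M a := rfl

lemma trP_comm (a b : RP hI M) : trP hS hI h1 M (a * b) = trP hS hI h1 M (b * a) := by
  obtain ⟨a, rfl⟩ := Ideal.Quotient.mk_surjective a
  obtain ⟨b, rfl⟩ := Ideal.Quotient.mk_surjective b
  rw [← map_mul, ← map_mul]
  change trP hS hI h1 M (mk hI M (a * b)) = trP hS hI h1 M (mk hI M (b * a))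
  rw [trP_mk, trP_mk, trL_comm]

lemma K_mk (η : ℚ) (n : ℕ) (a : Fin (n + 1) → End M) :
    K (trP hS hI h1 M) η n (fun i => mk hI M (a i)) = mk hI M (K (trL hS M) η n a) := by
  induction n with
  | zero => rfl
  | succ n ih =>
    rw [K_succ, K_succ, map_add, mk_smul, mk_smul, map_sum, ih, trP_mk]
    congr 2
    apply Finset.sum_congr rfl
    intro i _
    rw [← ih]
    congr 1
    funext j
    by_cases hj : j = i
    · subst hj
      rw [Function.update_self, Function.update_self, map_mul]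
    · rw [Function.update_of_ne hj, Function.update_of_ne hj]

/-- The full contraction is the trace of the contraction of all factors but one. -/
lemma F_eq_tr {R : Type*} [Ring R] [Algebra ℚ R] (tr : R →ₗ[ℚ] ℚ) (η : ℚ) (n : ℕ)
    (a : Fin (n + 1) → R) : F tr η (n + 1) a = tr (K tr η n a) := by
  induction n with
  | zero => simp [F, K]
  | succ n ih =>
    rw [F_succ, K_succ, map_add, map_smul, map_smul, map_sum, ih, smul_eq_mul, smul_eq_mul]
    congr 2
    exact Finset.sum_congr rfl (fun i _ => ih _)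

/-- The vanishing of the symmetric or exterior powers of `f` implies the algebraic condition. -/
lemma PowZeroMod.killed {ε : ℚ} (hε : ε * ε = 1) {f : End M} {n : ℕ}
    (h : PowZeroMod I ε (show M ⟶ M from f) (n + 1)) :
    Killed (trP hS hI h1 M) ε (mk hI M f) n := by
  have key : ∀ a : Fin (n + 1) → RP hI M, (∀ i, mk hI M f * a i = a i) →
      K (trP hS hI h1 M) ε n a = 0 := by
    intro a ha
    choose b hb using fun i => Ideal.Quotient.mk_surjective (a i)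
    have ha' : a = fun i => mk hI M (f * b i) := by
      funext i
      rw [map_mul, ← ha i, ← hb i]
    rw [ha', K_mk, mk_eq_zero]
    let p : ℕ → End M := fun j => if hj : n - j < n + 1 then b ⟨n - j, hj⟩ else 0
    have h2 := PT_tp hS ε n (fun j => f * p j)
    have h3 : (fun i : Fin (n + 1) => f * p (n - i)) = fun i => f * b i := by
      funext i
      have hi : (i : ℕ) < n + 1 := i.2
      have e1 : n - (n - (i : ℕ)) = i := by omega
      simp only [p, e1, hi, dif_pos]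
    rw [h3, ← tp_comp, tp_const, Category.assoc, En_eq hε, Linear.comp_smul, Linear.comp_smul] at h2
    have h4 : PT n (((n + 1).factorial : ℚ) • (tp p n ≫ Tm (show M ⟶ M from f) (n + 1) ≫
        sy ε M (n + 1))) ∈ I (T M 1) (T M 1) :=
      IsTensorIdeal.PT_mem hI n (Submodule.smul_mem _ _
        (hI.comp_left _ (h _ _ (signed_sy hε M (n + 1)))))
    rw [h2] at h4
    have e : (show M ⟶ M from K (R := End M) (trL hS M) ε n (fun i => f * b i)) =
        (λ_ M).inv ≫ (𝟙_ 𝒜 ◁ (show M ⟶ M from K (R := End M) (trL hS M) ε n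
          (fun i => f * b i))) ≫ (λ_ M).hom := by simp
    rw [e]
    exact hI.comp_left _ (hI.comp_right _ h4)
  exact ⟨key, fun a ha => by rw [F_eq_tr, key a ha, map_zero]⟩

end trace

lemma Tm_sub_mem {I : Family 𝒜} (hI : IsTensorIdeal I) {M : 𝒜} {e f : M ⟶ M}
    (h : e - f ∈ I M M) (n : ℕ) : Tm e n - Tm f n ∈ I (T M n) (T M n) := by
  induction n with
  | zero =>
    simp only [Tm, sub_self]
    exact Submodule.zero_mem _
  | succ n ih =>
    have e1 : Tm e (n + 1) - Tm f (n + 1) = (Tm e n - Tm f n) ▷ M ≫ T M n ◁ e +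
        Tm f n ▷ M ≫ T M n ◁ (e - f) := by
      simp only [Tm, MonoidalCategory.tensorHom_def]
      rw [sub_eq_add_neg (Tm e n), MonoidalPreadditive.add_whiskerRight,
        show (-Tm f n) ▷ M = -(Tm f n ▷ M) by
          rw [← neg_one_smul ℚ, MonoidalLinear.smul_whiskerRight, neg_one_smul],
        sub_eq_add_neg e, MonoidalPreadditive.whiskerLeft_add,
        show T M n ◁ (-f) = -(T M n ◁ f) by
          rw [← neg_one_smul ℚ, MonoidalLinear.whiskerLeft_smul, neg_one_smul],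
        Preadditive.add_comp, Preadditive.comp_add, Preadditive.neg_comp, Preadditive.comp_neg]
      abel
    rw [e1]
    exact Submodule.add_mem _ (hI.comp_right _ (hI.whisker_right _ ih))
      (hI.comp_left _ (hI.whisker_left _ h))

lemma Signed.Tm_comp' {ε : ℚ} {P Q Y : 𝒜} {n : ℕ} {g : T Q n ⟶ Y} (hg : Signed ε g) (u : P ⟶ Q) :
    Signed ε (Tm u n ≫ g) := by
  intro s hs
  obtain ⟨s', hs', e⟩ := Tm_adj u n s hs
  rw [reassoc_of% e, hg s' hs', Linear.comp_smul]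

/-- Conjugate endomorphisms die together. -/
lemma PowZeroMod.conj {I : Family 𝒜} {hI : IsTensorIdeal I} {ε : ℚ} {M : 𝒜} {f e u v : End M}
    {n : ℕ} (h : PowZeroMod I ε (show M ⟶ M from f) n) (he : mk hI M e = mk hI M (u * f * v)) :
    PowZeroMod I ε (show M ⟶ M from e) n := by
  intro Y g hg
  have h1 : (show M ⟶ M from e) - (show M ⟶ M from u * f * v) ∈ I M M := by
    have : mk hI M (e - u * f * v) = 0 := by rw [map_sub, he, sub_self]
    exact mk_eq_zero.1 this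
  have h2 := hI.comp_right g (Tm_sub_mem hI h1 n)
  have h3 : Tm (show M ⟶ M from u * f * v) n ≫ g ∈ I (T M n) Y := by
    have e1 : (show M ⟶ M from u * f * v) = (show M ⟶ M from v) ≫ (show M ⟶ M from f) ≫
        (show M ⟶ M from u) := rfl
    rw [e1, ← Tm_comp, ← Tm_comp, Category.assoc, Category.assoc]
    exact hI.comp_left _ (h _ _ (Signed.Tm_comp' hg _))
  rw [Preadditive.sub_comp] at h2
  exact (Submodule.sub_mem_iff_left _ h3).1 h2

end

end Pool.Agent.TH829.Rig
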