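import Pool.Agent.TH829.Rig.Loc

/-!
# Kimura-finiteness is local on the prime tensor ideals
-/

set_option autoImplicit false

open CategoryTheory MonoidalCategory Limits BraidedCategory

universe u v

namespace Pool.Agent.TH829.Rig

open Pool.Agent.TH90.AB Pool.Agent.TH90.Kim
open Pool.Agent.TH829.Kim (K F K_succ F_succ Killed InRad tr_sub_mul isNilpotent_of_inRad
  exists_lift exists_conj)
open Pool.Agent.TH829.Ten (Family IsTensorIdeal IsPrimeIdeal)

set_option linter.unusedSectionVars false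

noncomputable section

variable {𝒜 : Type u} [Category.{v} 𝒜] [MonoidalCategory 𝒜] [SymmetricCategory 𝒜]
  [Preadditive 𝒜] [MonoidalPreadditive 𝒜] [Linear ℚ 𝒜] [MonoidalLinear ℚ 𝒜]

/-- `M` is Kimura-finite modulo `I`. -/
def KimuraFiniteMod (I : Family 𝒜) (M : 𝒜) : Prop :=
  ∃ e : M ⟶ M, e ≫ e - e ∈ I M M ∧ (∃ n, PowZeroMod I (-1) e n) ∧
    ∃ n, PowZeroMod I 1 (𝟙 M - e) n

lemma PowZeroMod.mono {I J : Family 𝒜} (hIJ : I ≤ J) {ε : ℚ} {M : 𝒜} {e : M ⟶ M} {n : ℕ}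
    (h : PowZeroMod I ε e n) : PowZeroMod J ε e n := fun Y g hg => hIJ _ _ (h Y g hg)

lemma KimuraFiniteMod.mono {I J : Family 𝒜} (hIJ : I ≤ J) {M : 𝒜} (h : KimuraFiniteMod I M) :
    KimuraFiniteMod J M := by
  obtain ⟨e, h1, ⟨n, h2⟩, ⟨m, h3⟩⟩ := h
  exact ⟨e, hIJ _ _ h1, ⟨n, h2.mono hIJ⟩, ⟨m, h3.mono hIJ⟩⟩

/-- The zeroth power of an object is never zero. -/
lemma PowZeroMod.pos {I : Family 𝒜} (h1 : 𝟙 (𝟙_ 𝒜) ∉ I (𝟙_ 𝒜) (𝟙_ 𝒜)) {ε : ℚ} {M : 𝒜}
    {e : M ⟶ M} {n : ℕ} (h : PowZeroMod I ε e n) : ∃ m, n = m + 1 := by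
  rcases n with _ | m
  · exfalso
    apply h1
    have h2 := h (𝟙_ 𝒜) (𝟙 _) (by intro s hs; cases hs)
    simpa [Tm] using h2
  · exact ⟨m, rfl⟩

variable [hdual : ∀ X : 𝒜, HasRightDual X]

theorem kimuraMod_iff (hS : Scalars 𝒜) {I : Family 𝒜} (hI : IsTensorIdeal I) (M : 𝒜) :
    KimuraFiniteMod I M ↔ ∀ P : Family 𝒜, IsPrimeIdeal P → I ≤ P → KimuraFiniteMod P M := by
  constructor
  · intro h P _ hIP
    exact h.mono hIP
  intro h
  by_cases hI1 : 𝟙 (𝟙_ 𝒜) ∈ I (𝟙_ 𝒜) (𝟙_ 𝒜)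
  · exact ⟨0, hI.mem_of_unit hI1 _, ⟨0, fun Y g _ => hI.mem_of_unit hI1 _⟩,
      ⟨0, fun Y g _ => hI.mem_of_unit hI1 _⟩⟩
  have hm1 : (-1 : ℚ) * (-1) = 1 := by norm_num
  have hp1 : (1 : ℚ) * 1 = 1 := by norm_num
  have hNum := isPrime_numI hS
  have hN := hNum.toIsTensorIdeal
  obtain ⟨e, he1, ⟨n0', he2⟩, ⟨m0', he3⟩⟩ := h _ hNum (fun X Y f hf => le_numI hS hI hI1 hf)
  obtain ⟨n0, rfl⟩ := he2.pos hNum.unit_notMem
  obtain ⟨m0, rfl⟩ := he3.pos hNum.unit_notMem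
  let e₁ : End M := e
  -- the data for a prime ideal
  have key : ∀ (P : Family 𝒜) (hP : IsPrimeIdeal P), I ≤ P → ∃ f : End M,
      (mk hP.toIsTensorIdeal M f * mk hP.toIsTensorIdeal M f = mk hP.toIsTensorIdeal M f) ∧
      (∃ n, PowZeroMod P (-1) (show M ⟶ M from f) (n + 1)) ∧
      (∃ m, PowZeroMod P 1 (show M ⟶ M from (1 - f : End M)) (m + 1)) ∧
      InRad (trP hS hP.toIsTensorIdeal hP.unit_notMem M)
        (mk hP.toIsTensorIdeal M e₁ - mk hP.toIsTensorIdeal M f) ∧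
      (∀ x, InRad (trP hS hP.toIsTensorIdeal hP.unit_notMem M) x → IsNilpotent x) := by
    intro P hP hIP
    have hPt := hP.toIsTensorIdeal
    have hle : P ≤ numI := fun X Y f hf => le_numI hS hPt hP.unit_notMem hf
    obtain ⟨f, hf1, ⟨n', hf2⟩, ⟨m', hf3⟩⟩ := h P hP hIP
    obtain ⟨n, rfl⟩ := hf2.pos hP.unit_notMem
    obtain ⟨m, rfl⟩ := hf3.pos hP.unit_notMem
    let f₁ : End M := f
    have hidem : mk hPt M f₁ * mk hPt M f₁ = mk hPt M f₁ := by
      rw [← map_mul, ← sub_eq_zero, ← map_sub]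
      exact mk_eq_zero.2 hf1
    refine ⟨f₁, hidem, ⟨n, hf2⟩, ⟨m, hf3⟩, ?_, ?_⟩
    · -- modulo the numerical ideal
      have h1 : mk hN M e₁ * mk hN M e₁ = mk hN M e₁ := by
        rw [← map_mul, ← sub_eq_zero, ← map_sub]
        exact mk_eq_zero.2 he1
      have h2 : mk hN M f₁ * mk hN M f₁ = mk hN M f₁ := by
        rw [← map_mul, ← sub_eq_zero, ← map_sub]
        exact mk_eq_zero.2 (hle _ _ hf1)
      have h3 : PowZeroMod numI (-1) f (n + 1) := hf2.mono hle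
      have h4 : PowZeroMod numI 1 (𝟙 M - f) (m + 1) := hf3.mono hle
      have hs : ∀ a b : RP hN M, trP hS hN hNum.unit_notMem M (a * b) =
          trP hS hN hNum.unit_notMem M (b * a) := fun a b => trP_comm a b
      have k1 : Killed (trP hS hN hNum.unit_notMem M) (-1) (mk hN M e₁) n0 :=
        PowZeroMod.killed hm1 (f := e₁) he2
      have k2 : Killed (trP hS hN hNum.unit_notMem M) 1 (1 - mk hN M e₁) m0 := by
        have := PowZeroMod.killed (hS := hS) (hI := hN) (h1 := hNum.unit_notMem) hp1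
          (f := 1 - e₁) he3
        rwa [map_sub, map_one] at this
      have k3 : Killed (trP hS hN hNum.unit_notMem M) (-1) (mk hN M f₁) n :=
        PowZeroMod.killed hm1 (f := f₁) h3
      have k4 : Killed (trP hS hN hNum.unit_notMem M) 1 (1 - mk hN M f₁) m := by
        have := PowZeroMod.killed (hS := hS) (hI := hN) (h1 := hNum.unit_notMem) hp1
          (f := 1 - f₁) h4
        rwa [map_sub, map_one] at this
      have h5 := fun γ => tr_sub_mul (tr := trP hS hN hNum.unit_notMem M) hs h1 h2 k1 k2 k3 k4 γ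
      intro γ
      obtain ⟨γ, rfl⟩ := Ideal.Quotient.mk_surjective γ
      have h6 := h5 (mk hN M γ)
      rw [← map_sub, ← map_mul, trP_mk] at h6
      rw [← map_sub, ← map_mul]
      exact h6
    · intro x hx
      have hs : ∀ a b : RP hPt M, trP hS hPt hP.unit_notMem M (a * b) =
          trP hS hPt hP.unit_notMem M (b * a) := fun a b => trP_comm a b
      have k1 : Killed (trP hS hPt hP.unit_notMem M) (-1) (mk hPt M f₁) n :=
        PowZeroMod.killed hm1 (f := f₁) hf2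
      have k2 : Killed (trP hS hPt hP.unit_notMem M) 1 (1 - mk hPt M f₁) m := by
        have := PowZeroMod.killed (hS := hS) (hI := hPt) (h1 := hP.unit_notMem) hp1
          (f := 1 - f₁) hf3
        rwa [map_sub, map_one] at this
      exact isNilpotent_of_inRad hs hidem k1 k2 hx
  -- `e * e - e` is nilpotent
  have hrad : ∀ (P : Family 𝒜) (hP : IsPrimeIdeal P) (f : End M),
      mk hP.toIsTensorIdeal M f * mk hP.toIsTensorIdeal M f = mk hP.toIsTensorIdeal M f →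
      InRad (trP hS hP.toIsTensorIdeal hP.unit_notMem M)
        (mk hP.toIsTensorIdeal M e₁ - mk hP.toIsTensorIdeal M f) →
      InRad (trP hS hP.toIsTensorIdeal hP.unit_notMem M)
        (mk hP.toIsTensorIdeal M (e₁ * e₁ - e₁)) := by
    intro P hP f hf hr
    have e1 : mk hP.toIsTensorIdeal M (e₁ * e₁ - e₁) =
        (mk hP.toIsTensorIdeal M e₁ - mk hP.toIsTensorIdeal M f) * mk hP.toIsTensorIdeal M e₁ +
        mk hP.toIsTensorIdeal M f * (mk hP.toIsTensorIdeal M e₁ - mk hP.toIsTensorIdeal M f) -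
        (mk hP.toIsTensorIdeal M e₁ - mk hP.toIsTensorIdeal M f) := by
      rw [map_sub, map_mul, mul_sub, sub_mul, hf]
      abel
    have hs : ∀ a b : RP hP.toIsTensorIdeal M,
        trP hS hP.toIsTensorIdeal hP.unit_notMem M (a * b) =
          trP hS hP.toIsTensorIdeal hP.unit_notMem M (b * a) := fun a b => trP_comm a b
    rw [e1]
    exact ((hr.mul_right _).add (hr.mul_left hs _)).sub hr
  have hpw : ∀ {J : Family 𝒜} (hJ : IsTensorIdeal J) (x : End M) (k : ℕ),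
      mk hJ M x ^ k = 0 ↔ pw (show M ⟶ M from x) k ∈ J M M := by
    intro J hJ x k
    rw [← map_pow]
    exact mk_eq_zero
  have hnil : IsNilpotent (mk hI M (e₁ * e₁ - e₁)) := by
    obtain ⟨k, hk⟩ := nil_of_prime (show M ⟶ M from e₁ * e₁ - e₁) hI (fun P hP hIP => by
      obtain ⟨f, hf, -, -, hr, hn⟩ := key P hP hIP
      obtain ⟨k, hk⟩ := hn _ (hrad P hP f hf hr)
      exact ⟨k, (hpw hP.toIsTensorIdeal _ k).1 hk⟩)
    exact ⟨k, (hpw hI _ k).2 hk⟩
  rw [map_sub, map_mul] at hnil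
  obtain ⟨e', c, he', hc⟩ := exists_lift hnil
  obtain ⟨e', rfl⟩ := Ideal.Quotient.mk_surjective e'
  obtain ⟨c, rfl⟩ := Ideal.Quotient.mk_surjective c
  -- the idempotent `e'` works
  have key2 : ∀ P : Family 𝒜, IsPrimeIdeal P → I ≤ P →
      (∃ n, PowZeroMod P (-1) (show M ⟶ M from e') n) ∧
      ∃ n, PowZeroMod P 1 (show M ⟶ M from (1 - e' : End M)) n := by
    intro P hP hIP
    have hPt := hP.toIsTensorIdeal
    obtain ⟨f, hf, ⟨n, hf2⟩, ⟨m, hf3⟩, hr, hn⟩ := key P hP hIP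
    have htrans : ∀ x : End M, mk hI M x = 0 → mk hPt M x = 0 := by
      intro x hx
      exact mk_eq_zero.2 (hIP _ _ (mk_eq_zero.1 hx))
    have hc' : mk hPt M (e' - e₁) = mk hPt M (e₁ * e₁ - e₁) * mk hPt M c := by
      rw [← map_mul, ← sub_eq_zero, ← map_sub]
      apply htrans
      rw [map_sub, sub_eq_zero, map_mul, map_sub, map_sub, map_mul]
      exact hc
    have he'' : mk hPt M e' * mk hPt M e' = mk hPt M e' := by
      rw [← map_mul, ← sub_eq_zero, ← map_sub]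
      apply htrans
      rw [map_sub, sub_eq_zero, map_mul]
      exact he'
    have hs : ∀ a b : RP hPt M, trP hS hPt hP.unit_notMem M (a * b) =
        trP hS hPt hP.unit_notMem M (b * a) := fun a b => trP_comm a b
    have hr' : InRad (trP hS hPt hP.unit_notMem M) (mk hPt M e' - mk hPt M f) := by
      have e1 : mk hPt M e' - mk hPt M f = mk hPt M (e₁ * e₁ - e₁) * mk hPt M c +
          (mk hPt M e₁ - mk hPt M f) := by
        rw [← hc', map_sub]
        abel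
      rw [e1]
      exact ((hrad P hP f hf hr).mul_right _).add hr
    obtain ⟨a, b, hab, -, hconj⟩ := exists_conj hs he'' hf hn hr'
    obtain ⟨a, rfl⟩ := Ideal.Quotient.mk_surjective a
    obtain ⟨b, rfl⟩ := Ideal.Quotient.mk_surjective b
    refine ⟨⟨n + 1, hf2.conj (hI := hPt) (u := a) (v := b) ?_⟩,
      ⟨m + 1, hf3.conj (hI := hPt) (u := a) (v := b) ?_⟩⟩
    · rw [hconj, map_mul, map_mul]
    · rw [map_sub, map_one, hconj, map_mul, map_mul, map_sub, map_one, mul_sub, sub_mul, mul_one]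
      congr 1
      exact hab.symm
  have he3' : (show M ⟶ M from e') ≫ (show M ⟶ M from e') - (show M ⟶ M from e') ∈ I M M := by
    have : mk hI M (e' * e' - e') = 0 := by
      rw [map_sub, sub_eq_zero, map_mul]
      exact he'
    exact mk_eq_zero.1 this
  exact ⟨e', he3', powZero_of_prime hm1 _ hI fun P hP hIP => (key2 P hP hIP).1,
    powZero_of_prime hp1 _ hI fun P hP hIP => (key2 P hP hIP).2⟩

omit hdual in
lemma powZero_of_mod {ε : ℚ} {M P : 𝒜} {n : ℕ} (i : P ⟶ M) (r : M ⟶ P) (hir : i ≫ r = 𝟙 P)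
    (h : PowZeroMod (fun _ _ => ⊥ : Family 𝒜) ε (r ≫ i) n) : PowZero ε P n := by
  intro Y g hg
  have h1 := h _ _ (Signed.Tm_comp' hg r)
  rw [Submodule.mem_bot] at h1
  have h2 : Tm i n ≫ Tm (r ≫ i) n ≫ Tm r n ≫ g = g := by
    rw [← Category.assoc, Tm_comp, ← Category.assoc, Tm_comp]
    have : (i ≫ r ≫ i) ≫ r = 𝟙 P := by
      rw [reassoc_of% hir, hir]
    rw [this, Tm_id, Category.id_comp]
  rw [← h2, h1, comp_zero]

omit hdual in
lemma mod_of_powZero {ε : ℚ} {M P : 𝒜} {n : ℕ} (i : P ⟶ M) (r : M ⟶ P)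
    (h : PowZero ε P n) : PowZeroMod (fun _ _ => ⊥ : Family 𝒜) ε (r ≫ i) n := by
  intro Y g hg
  rw [← Tm_comp, Category.assoc, h _ _ (Signed.Tm_comp' hg i), comp_zero]
  exact Submodule.zero_mem _

omit hdual in
lemma kimuraFinite_iff_bot [IsIdempotentComplete 𝒜] (M : 𝒜) :
    KimuraFinite M ↔ KimuraFiniteMod (fun _ _ => ⊥ : Family 𝒜) M := by
  constructor
  · rintro ⟨P, Q, ⟨S⟩, ⟨n, hn⟩, ⟨m, hm⟩⟩
    have e1 : 𝟙 M - S.r ≫ S.i = S.s ≫ S.j := by rw [← S.sum]; abel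
    refine ⟨S.r ≫ S.i, ?_, ⟨n, mod_of_powZero _ _ hn⟩, ⟨m, ?_⟩⟩
    · have : (S.r ≫ S.i) ≫ (S.r ≫ S.i) = S.r ≫ S.i := by
        rw [Category.assoc, reassoc_of% S.ir]
      rw [this, sub_self]
      exact Submodule.zero_mem _
    · rw [e1]
      exact mod_of_powZero _ _ hm
  · rintro ⟨e, h1, ⟨n, hn⟩, ⟨m, hm⟩⟩
    rw [Submodule.mem_bot, sub_eq_zero] at h1
    have h2 : (𝟙 M - e) ≫ (𝟙 M - e) = 𝟙 M - e := by
      simp only [Preadditive.sub_comp, Preadditive.comp_sub, Category.id_comp, Category.comp_id, h1,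
        sub_self, sub_zero]
    obtain ⟨P, i, r, hir, hri⟩ := IsIdempotentComplete.idempotents_split M e h1
    obtain ⟨Q, j, s, hjs, hsj⟩ := IsIdempotentComplete.idempotents_split M _ h2
    refine ⟨P, Q, ⟨⟨i, r, j, s, hir, hjs, by rw [hri, hsj]; abel⟩⟩, ⟨n, ?_⟩, ⟨m, ?_⟩⟩
    · apply powZero_of_mod i r hir
      rw [hri]
      exact hn
    · apply powZero_of_mod j s hjs
      rw [hsj]
      exact hm

theorem kimura_iff [IsIdempotentComplete 𝒜] (hS : Scalars 𝒜) (M : 𝒜) :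
    KimuraFinite M ↔ ∀ P : Family 𝒜, IsPrimeIdeal P → KimuraFiniteMod P M := by
  rw [kimuraFinite_iff_bot, kimuraMod_iff hS Ten.isTensorIdeal_bot]
  constructor
  · intro h P hP
    exact h P hP (fun _ _ => bot_le)
  · intro h P hP _
    exact h P hP

end

end Pool.Agent.TH829.Rig
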