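import Pool.Agent.TH90.Kim.CH
import Pool.Agent.TH829.Kim.Alg2
import Pool.Agent.TH829.Ten.Ideal

/-!
# Partial traces of (anti)symmetrised tensor products of endomorphisms
-/

set_option autoImplicit false

open CategoryTheory MonoidalCategory Limits BraidedCategory

universe u v

namespace Pool.Agent.TH829.Rig

open Pool.Agent.TH90.AB Pool.Agent.TH90.Kim
open Pool.Agent.TH829.Kim (K F K_succ F_succ)

set_option linter.unusedSectionVars false

noncomputable section

variable {𝒜 : Type u} [Category.{v} 𝒜] [MonoidalCategory 𝒜] [SymmetricCategory 𝒜]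
  [Preadditive 𝒜] [MonoidalPreadditive 𝒜] [Linear ℚ 𝒜] [MonoidalLinear ℚ 𝒜]

/-- `p 0 ⊗ ⋯ ⊗ p n`. -/
def tp {P : 𝒜} (p : ℕ → End P) : ∀ n, T P (n + 1) ⟶ T P (n + 1)
  | 0 => 𝟙_ 𝒜 ◁ (show P ⟶ P from p 0)
  | n + 1 => tp p n ▷ P ≫ T P (n + 1) ◁ (show P ⟶ P from p (n + 1))

lemma tp_congr {P : 𝒜} {p q : ℕ → End P} (n : ℕ) (h : ∀ j ≤ n, p j = q j) :
    tp p n = tp q n := by
  induction n with
  | zero => simp only [tp]; rw [h 0 le_rfl]
  | succ n ih =>
    simp only [tp]
    rw [ih (fun j hj => h j (by omega)), h (n + 1) le_rfl]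

lemma tp_Sn {P : 𝒜} (p : ℕ → End P) (g : End P) (n : ℕ) :
    tp p n ≫ Sn (show P ⟶ P from g) n =
      ∑ j ∈ Finset.range (n + 1), tp (Function.update p j (g * p j)) n := by
  induction n with
  | zero =>
    simp only [tp, Sn, zero_add, Finset.range_one, Finset.sum_singleton, Function.update_self]
    rw [← MonoidalCategory.whiskerLeft_comp]
    rfl
  | succ n ih =>
    rw [Finset.sum_range_succ]
    simp only [tp, Sn, Function.update_self]
    have e1 : ∀ j ∈ Finset.range (n + 1),
        tp (Function.update p j (g * p j)) n ▷ P ≫ T P (n + 1) ◁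
          (show P ⟶ P from Function.update p j (g * p j) (n + 1)) =
        tp (Function.update p j (g * p j)) n ▷ P ≫ T P (n + 1) ◁
          (show P ⟶ P from p (n + 1)) := by
      intro j hj
      rw [Finset.mem_range] at hj
      rw [Function.update_of_ne (by omega)]
    have e2 : tp (Function.update p (n + 1) (g * p (n + 1))) n = tp p n :=
      tp_congr n (fun j hj => Function.update_of_ne (by omega) _ _)
    rw [Finset.sum_congr rfl e1, ← Preadditive.sum_comp, ← sum_whiskerRight', ← ih, e2,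
      Preadditive.comp_add, Category.assoc, Category.assoc, ← MonoidalCategory.whiskerLeft_comp,
      whisker_exchange, comp_whiskerRight, Category.assoc]
    exact add_comm _ _

section trace

variable [hdual : ∀ X : 𝒜, HasRightDual X]

lemma ptr_tp {ε : ℚ} {P : 𝒜} (p : ℕ → End P) (n : ℕ) {q : ℚ}
    (hq : tr (show P ⟶ P from p (n + 1)) = q • 𝟙 (𝟙_ 𝒜)) :
    ptr (tp p (n + 1) ≫ En ε P (n + 1)) = q • (tp p n ≫ En ε P n) +
      ε • ∑ j ∈ Finset.range (n + 1), tp (Function.update p j (p (n + 1) * p j)) n ≫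
        En ε P n := by
  simp only [tp, En, Category.assoc]
  have e3 : T P (n + 1) ◁ (show P ⟶ P from p (n + 1)) ≫ (𝟙 _ + ε • Jm P (n + 1)) ≫
      En ε P n ▷ P = (T P (n + 1) ◁ (show P ⟶ P from p (n + 1)) +
        ε • (T P (n + 1) ◁ (show P ⟶ P from p (n + 1)) ≫ Jm P (n + 1))) ≫ En ε P n ▷ P := by
    rw [← Category.assoc, Preadditive.comp_add, Linear.comp_smul, Category.comp_id]
  rw [e3, ptr_left, ptr_right, Pool.Agent.TH90.Kim.ptr_add, ptr_smul, ptr_scalar hq, ptr_Jm,
    Preadditive.add_comp, Linear.smul_comp, Linear.smul_comp, Category.id_comp,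
    Preadditive.comp_add, Linear.comp_smul, Linear.comp_smul, ← Category.assoc _ _ (En ε P n),
    tp_Sn, Preadditive.sum_comp]

end trace

end

end Pool.Agent.TH829.Rig
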