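import Pool.Agent.TH829.Rig.Part

/-!
# Endomorphisms modulo a tensor ideal
-/

set_option autoImplicit false

open CategoryTheory MonoidalCategory Limits BraidedCategory

universe u v

namespace Pool.Agent.TH829.Rig

open Pool.Agent.TH90.AB Pool.Agent.TH90.Kim
open Pool.Agent.TH829.Kim (K F K_succ F_succ Killed InRad)
open Pool.Agent.TH829.Ten (Family IsTensorIdeal IsPrimeIdeal)

set_option linter.unusedSectionVars false

noncomputable section

variable {𝒜 : Type u} [Category.{v} 𝒜] [MonoidalCategory 𝒜] [SymmetricCategory 𝒜]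
  [Preadditive 𝒜] [MonoidalPreadditive 𝒜] [Linear ℚ 𝒜] [MonoidalLinear ℚ 𝒜]

/-- The endomorphisms of the unit are the rational numbers. -/
structure Scalars (𝒜 : Type u) [Category.{v} 𝒜] [MonoidalCategory 𝒜] [Preadditive 𝒜]
    [Linear ℚ 𝒜] : Prop where
  ex : ∀ f : 𝟙_ 𝒜 ⟶ 𝟙_ 𝒜, ∃ q : ℚ, f = q • 𝟙 (𝟙_ 𝒜)
  ne : 𝟙 (𝟙_ 𝒜) ≠ 0

/-- The rational number of an endomorphism of the unit. -/
def Scalars.num (hS : Scalars 𝒜) (f : 𝟙_ 𝒜 ⟶ 𝟙_ 𝒜) : ℚ := (hS.ex f).choose

lemma Scalars.num_spec (hS : Scalars 𝒜) (f : 𝟙_ 𝒜 ⟶ 𝟙_ 𝒜) : f = hS.num f • 𝟙 (𝟙_ 𝒜) :=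
  (hS.ex f).choose_spec

lemma Scalars.inj (hS : Scalars 𝒜) {a b : ℚ} (h : a • 𝟙 (𝟙_ 𝒜) = b • 𝟙 (𝟙_ 𝒜)) : a = b := by
  rw [← sub_eq_zero, ← sub_smul] at h
  rcases smul_eq_zero.1 h with h | h
  · exact sub_eq_zero.1 h
  · exact absurd h hS.ne

lemma Scalars.num_add (hS : Scalars 𝒜) (f g : 𝟙_ 𝒜 ⟶ 𝟙_ 𝒜) :
    hS.num (f + g) = hS.num f + hS.num g := by
  apply hS.inj
  rw [← hS.num_spec, add_smul, ← hS.num_spec, ← hS.num_spec]

lemma Scalars.num_zero (hS : Scalars 𝒜) : hS.num 0 = 0 := by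
  apply hS.inj
  rw [← hS.num_spec, zero_smul]

/-- An ideal containing a non-zero scalar contains the identity. -/
lemma Scalars.num_eq_zero (hS : Scalars 𝒜) {I : Family 𝒜} (h1 : 𝟙 (𝟙_ 𝒜) ∉ I (𝟙_ 𝒜) (𝟙_ 𝒜))
    {f : 𝟙_ 𝒜 ⟶ 𝟙_ 𝒜} (hf : f ∈ I (𝟙_ 𝒜) (𝟙_ 𝒜)) : hS.num f = 0 := by
  by_contra h
  apply h1
  have h2 := Submodule.smul_mem _ (hS.num f)⁻¹ hf
  nth_rewrite 2 [hS.num_spec f] at h2
  rwa [smul_smul, inv_mul_cancel₀ h, one_smul] at h2

section trace

variable [hdual : ∀ X : 𝒜, HasRightDual X]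

lemma tr_add' {M : 𝒜} (f g : M ⟶ M) : tr (f + g) = tr f + tr g := by
  simp only [tr_eq, MonoidalPreadditive.add_whiskerRight, Preadditive.add_comp,
    Preadditive.comp_add]

/-- The trace as a rational number. -/
def trL (hS : Scalars 𝒜) (M : 𝒜) : End M →ₗ[ℚ] ℚ :=
  AddMonoidHom.toRatLinearMap
    { toFun := fun f => hS.num (tr (show M ⟶ M from f))
      map_zero' := by
        have h : tr (0 : M ⟶ M) = 0 := by
          simp only [tr_eq, MonoidalPreadditive.zero_whiskerRight, zero_comp, comp_zero]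
        change hS.num (tr (0 : M ⟶ M)) = 0
        rw [h, hS.num_zero]
      map_add' := fun f g => by
        change hS.num (tr ((show M ⟶ M from f) + (show M ⟶ M from g))) = _
        rw [tr_add', hS.num_add] }

lemma trL_spec (hS : Scalars 𝒜) {M : 𝒜} (f : End M) :
    tr (show M ⟶ M from f) = trL hS M f • 𝟙 (𝟙_ 𝒜) := hS.num_spec _

lemma trL_comm (hS : Scalars 𝒜) {M : 𝒜} (f g : End M) :
    trL hS M (f * g) = trL hS M (g * f) := by
  apply hS.inj
  rw [← trL_spec, ← trL_spec]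
  exact tr_comm (show M ⟶ M from g) (show M ⟶ M from f)

lemma IsTensorIdeal.ptr_mem {I : Family 𝒜} (hI : IsTensorIdeal I) {X Y P : 𝒜}
    {g : X ⊗ P ⟶ Y ⊗ P} (hg : g ∈ I (X ⊗ P) (Y ⊗ P)) : ptr g ∈ I X Y := by
  unfold ptr
  exact hI.comp_left _ (hI.comp_left _ (hI.comp_left _ (hI.comp_right _ (hI.whisker_right _ hg))))

lemma IsTensorIdeal.PT_mem {I : Family 𝒜} (hI : IsTensorIdeal I) {P : 𝒜} (n : ℕ) :
    ∀ {g : T P (n + 1) ⟶ T P (n + 1)}, g ∈ I (T P (n + 1)) (T P (n + 1)) →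
      PT n g ∈ I (T P 1) (T P 1) := by
  induction n with
  | zero => intro g hg; exact hg
  | succ n ih => intro g hg; exact ih (IsTensorIdeal.ptr_mem hI hg)

lemma IsTensorIdeal.tr_mem {I : Family 𝒜} (hI : IsTensorIdeal I) {M : 𝒜} {f : M ⟶ M}
    (hf : f ∈ I M M) : tr f ∈ I (𝟙_ 𝒜) (𝟙_ 𝒜) := by
  rw [tr_eq]
  exact hI.comp_left _ (hI.comp_right _ (hI.whisker_right _ hf))

lemma trL_of_mem (hS : Scalars 𝒜) {I : Family 𝒜} (hI : IsTensorIdeal I)
    (h1 : 𝟙 (𝟙_ 𝒜) ∉ I (𝟙_ 𝒜) (𝟙_ 𝒜)) {M : 𝒜} {f : End M} (hf : f ∈ I M M) :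
    trL hS M f = 0 := hS.num_eq_zero h1 (IsTensorIdeal.tr_mem hI hf)

lemma PT_tp (hS : Scalars 𝒜) (ε : ℚ) {M : 𝒜} (n : ℕ) : ∀ p : ℕ → End M,
    PT n (tp p n ≫ En ε M n) =
      𝟙_ 𝒜 ◁ (show M ⟶ M from K (R := End M) (trL hS M) ε n (fun i : Fin (n + 1) => p (n - i))) := by
  induction n with
  | zero =>
    intro p
    simp only [PT, tp, En, Category.comp_id]
    rfl
  | succ n ih =>
    intro p
    have h1 := ptr_tp (ε := ε) p n (trL_spec hS (p (n + 1)))
    change PT n (ptr (tp p (n + 1) ≫ En ε M (n + 1))) = _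
    rw [h1, PT_add, PT_smul, PT_smul, PT_sum, ih, K_succ]
    have h2 : ∀ j ∈ Finset.range (n + 1), PT n (tp (Function.update p j (p (n + 1) * p j)) n ≫
        En ε M n) = 𝟙_ 𝒜 ◁ (show M ⟶ M from K (R := End M) (trL hS M) ε n (fun i : Fin (n + 1) =>
          Function.update p j (p (n + 1) * p j) (n - i))) := fun j _ => ih _
    rw [Finset.sum_congr rfl h2]
    have h3 : (∑ j ∈ Finset.range (n + 1), 𝟙_ 𝒜 ◁ (show M ⟶ M from K (R := End M) (trL hS M) ε n
        (fun i : Fin (n + 1) => Function.update p j (p (n + 1) * p j) (n - i)))) =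
        𝟙_ 𝒜 ◁ (show M ⟶ M from ∑ i : Fin (n + 1), K (R := End M) (trL hS M) ε n (Function.update
          (fun i : Fin (n + 1) => p (n + 1 - i.succ)) i (p (n + 1) * p (n + 1 - i.succ)))) := by
      have h4 : ∀ {ι : Type} (s : Finset ι) (g : ι → (M ⟶ M)),
          𝟙_ 𝒜 ◁ (∑ i ∈ s, g i) = ∑ i ∈ s, 𝟙_ 𝒜 ◁ g i := by
        intro ι s g
        classical
        induction s using Finset.induction_on with
        | empty => simp
        | insert a s ha ih => rw [Finset.sum_insert ha, Finset.sum_insert ha,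
            MonoidalPreadditive.whiskerLeft_add, ih]
      rw [← Finset.sum_range_reflect, Finset.sum_range]
      refine (Eq.trans ?_ (h4 Finset.univ (fun i : Fin (n + 1) => (show M ⟶ M from
        K (R := End M) (trL hS M) ε n (Function.update (fun i : Fin (n + 1) => p (n + 1 - i.succ)) i
          (p (n + 1) * p (n + 1 - i.succ)))))).symm)
      apply Finset.sum_congr rfl
      intro i _
      congr 1
      refine congrArg (K (R := End M) (trL hS M) ε n) (funext fun j => ?_)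
      have hi : (i : ℕ) < n + 1 := i.2
      have hj : (j : ℕ) < n + 1 := j.2
      by_cases hij : j = i
      · subst hij
        rw [Function.update_self]
        have e1 : n + 1 - 1 - (j : ℕ) = n - j := by omega
        rw [e1, Function.update_self]
        simp only [Fin.val_succ]
        congr 2
        omega
      · rw [Function.update_of_ne hij, Function.update_of_ne]
        · simp only [Fin.val_succ]
          congr 1
          omega
        · intro h
          apply hij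
          apply Fin.ext
          omega
    rw [h3, ← MonoidalLinear.whiskerLeft_smul, ← MonoidalLinear.whiskerLeft_smul,
      ← MonoidalPreadditive.whiskerLeft_add]
    congr 1
    simp only [Fin.val_zero, Nat.sub_zero, Fin.val_succ]
    have e5 : (fun i : Fin (n + 1) => p (n - (i : ℕ))) =
        fun i : Fin (n + 1) => p (n + 1 - ((i : ℕ) + 1)) := by
      funext i
      congr 1
      omega
    rw [e5]

end trace

end

end Pool.Agent.TH829.Rig
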